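import Pool.Agent.W2helper37.SG.Stm

/-!
# Piece DUA of helper37's project SG (MP_56c18a_ag)
-/

set_option autoImplicit false
set_option linter.unusedSectionVars false
set_option linter.unusedSimpArgs false
set_option backward.isDefEq.respectTransparency false
set_option backward.defeqAttrib.useBackward true

open CategoryTheory Limits MonoidalCategory
open Pool.Agent.Y112.SR Pool.Agent.Y112.KD Pool.Agent.Y112.SC Pool.Agent.W2helper37.SG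

namespace Pool.Agent.W2helper15.SG

universe v u w

open Functor.LaxMonoidal Functor.OplaxMonoidal

section

variable {C : Type u} [Category.{v} C] [Preadditive C] [MonoidalCategory C] [SymmetricCategory C]
  [RightRigidCategory C] {K : Type w} [Field K] (R : SuperRealisation C K)

lemma par_ev (N : C) : R.H.obj Nᘁ ◁ R.par N ≫ evb R N = R.par Nᘁ ▷ R.H.obj N ≫ evb R N := by
  have h1 := evb_even R N
  have h2 : R.par Nᘁ ▷ R.H.obj N ≫ (R.par Nᘁ ⊗ₘ R.par N) = R.H.obj Nᘁ ◁ R.par N := by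
    rw [MonoidalCategory.tensorHom_def, ← Category.assoc, ← comp_whiskerRight, R.par_sq,
      id_whiskerRight, Category.id_comp]
  rw [← h2, Category.assoc, h1]

lemma zigzag2 (N : C) : (ρ_ (R.H.obj Nᘁ)).inv ≫ R.H.obj Nᘁ ◁ coe R N ≫ (α_ _ _ _).inv ≫
    evb R N ▷ R.H.obj Nᘁ ≫ (λ_ (R.H.obj Nᘁ)).hom = 𝟙 _ := by
  have h7 : (ρ_ Nᘁ).inv ≫ Nᘁ ◁ η_ N Nᘁ ≫ (α_ Nᘁ N Nᘁ).inv ≫ ε_ N Nᘁ ▷ Nᘁ ≫ (λ_ Nᘁ).hom = 𝟙 _ := by
    rw [ExactPairing.coevaluation_evaluation_assoc]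
    simp
  have h := congrArg R.H.map h7
  simp only [Functor.map_comp, Functor.Monoidal.map_whiskerLeft,
    Functor.Monoidal.map_whiskerRight, Functor.Monoidal.map_associator,
    Functor.Monoidal.map_associator_inv, Functor.Monoidal.map_rightUnitor,
    Functor.Monoidal.map_rightUnitor_inv, Functor.Monoidal.map_leftUnitor,
    Functor.Monoidal.map_leftUnitor_inv, Category.assoc, Functor.Monoidal.μ_δ_assoc,
    CategoryTheory.Functor.map_id] at h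
  rw [← h, coe, evb]
  simp only [comp_whiskerRight, MonoidalCategory.whiskerLeft_comp, Category.assoc]

/-- the transpose of an endomorphism whose realisation is the parity -/
lemma dual_par {M : C} (g : M ⟶ M) (hg : R.H.map g = R.par M) :
    ∃ f : Mᘁ ⟶ Mᘁ, R.H.map f = R.par Mᘁ := by
  refine ⟨(ρ_ Mᘁ).inv ≫ Mᘁ ◁ η_ M Mᘁ ≫ Mᘁ ◁ (g ▷ Mᘁ) ≫ (α_ Mᘁ M Mᘁ).inv ≫ ε_ M Mᘁ ▷ Mᘁ ≫
    (λ_ Mᘁ).hom, ?_⟩
  have e1 : R.H.map ((ρ_ Mᘁ).inv ≫ Mᘁ ◁ η_ M Mᘁ ≫ Mᘁ ◁ (g ▷ Mᘁ) ≫ (α_ Mᘁ M Mᘁ).inv ≫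
      ε_ M Mᘁ ▷ Mᘁ ≫ (λ_ Mᘁ).hom) = (ρ_ (R.H.obj Mᘁ)).inv ≫ R.H.obj Mᘁ ◁ coe R M ≫
      R.H.obj Mᘁ ◁ (R.H.map g ▷ R.H.obj Mᘁ) ≫ (α_ _ _ _).inv ≫
      evb R M ▷ R.H.obj Mᘁ ≫ (λ_ (R.H.obj Mᘁ)).hom := by
    simp only [Functor.map_comp, Functor.Monoidal.map_whiskerLeft,
      Functor.Monoidal.map_whiskerRight, Functor.Monoidal.map_associator,
      Functor.Monoidal.map_associator_inv, Functor.Monoidal.map_rightUnitor,
      Functor.Monoidal.map_rightUnitor_inv, Functor.Monoidal.map_leftUnitor,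
      Functor.Monoidal.map_leftUnitor_inv, Category.assoc, Functor.Monoidal.μ_δ_assoc,
      coe, evb, comp_whiskerRight, MonoidalCategory.whiskerLeft_comp]
    have h5 : R.H.obj Mᘁ ◁ μ R.H M Mᘁ ≫ R.H.obj Mᘁ ◁ δ R.H M Mᘁ = 𝟙 _ := by
      rw [← MonoidalCategory.whiskerLeft_comp, Functor.Monoidal.μ_δ,
        MonoidalCategory.whiskerLeft_id]
    rw [reassoc_of% h5]
  have e2 : (R.H.obj Mᘁ ◁ R.par M) ▷ R.H.obj Mᘁ ≫ evb R M ▷ R.H.obj Mᘁ =
      (R.par Mᘁ ▷ R.H.obj M) ▷ R.H.obj Mᘁ ≫ evb R M ▷ R.H.obj Mᘁ := by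
    rw [← comp_whiskerRight, par_ev, comp_whiskerRight]
  rw [e1, hg, associator_inv_naturality_middle_assoc, reassoc_of% e2,
    ← associator_inv_naturality_left_assoc, whisker_exchange_assoc,
    ← rightUnitor_inv_naturality_assoc, zigzag2, Category.comp_id]

/-- the converse -/
lemma par_dual {M : C} (g : Mᘁ ⟶ Mᘁ) (hg : R.H.map g = R.par Mᘁ) :
    ∃ f : M ⟶ M, R.H.map f = R.par M := by
  refine ⟨(λ_ M).inv ≫ η_ M Mᘁ ▷ M ≫ (M ◁ g) ▷ M ≫ (α_ M Mᘁ M).hom ≫ M ◁ ε_ M Mᘁ ≫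
    (ρ_ M).hom, ?_⟩
  have e1 : R.H.map ((λ_ M).inv ≫ η_ M Mᘁ ▷ M ≫ (M ◁ g) ▷ M ≫ (α_ M Mᘁ M).hom ≫ M ◁ ε_ M Mᘁ ≫
      (ρ_ M).hom) = (λ_ (R.H.obj M)).inv ≫ coe R M ▷ R.H.obj M ≫
      (R.H.obj M ◁ R.H.map g) ▷ R.H.obj M ≫ (α_ _ _ _).hom ≫
      R.H.obj M ◁ evb R M ≫ (ρ_ (R.H.obj M)).hom := by
    simp only [Functor.map_comp, Functor.Monoidal.map_whiskerLeft,
      Functor.Monoidal.map_whiskerRight, Functor.Monoidal.map_associator,
      Functor.Monoidal.map_associator_inv, Functor.Monoidal.map_rightUnitor,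
      Functor.Monoidal.map_rightUnitor_inv, Functor.Monoidal.map_leftUnitor,
      Functor.Monoidal.map_leftUnitor_inv, Category.assoc, Functor.Monoidal.μ_δ_assoc,
      coe, evb, comp_whiskerRight, MonoidalCategory.whiskerLeft_comp]
    have h5 : μ R.H M Mᘁ ▷ R.H.obj M ≫ δ R.H M Mᘁ ▷ R.H.obj M = 𝟙 _ := by
      rw [← comp_whiskerRight, Functor.Monoidal.μ_δ, id_whiskerRight]
    rw [reassoc_of% h5]
  have e2 : R.H.obj M ◁ (R.par Mᘁ ▷ R.H.obj M) ≫ R.H.obj M ◁ evb R M =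
      R.H.obj M ◁ (R.H.obj Mᘁ ◁ R.par M) ≫ R.H.obj M ◁ evb R M := by
    rw [← MonoidalCategory.whiskerLeft_comp, ← par_ev, MonoidalCategory.whiskerLeft_comp]
  have e3 := zigzag R M
  rw [e1, hg, associator_naturality_middle_assoc, reassoc_of% e2,
    ← associator_naturality_right_assoc, ← whisker_exchange_assoc,
    ← leftUnitor_inv_naturality_assoc, reassoc_of% e3]
  simp

end

/-- **Piece DUA.** -/
theorem p_dua : P_DUA.{v, u, w} := by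
  intro C _ _ _ _ _ _ _ _ K _ R M
  have h1 : R.CPlus Mᘁ ↔ R.CPlus M := by
    rw [cplus_iff, cplus_iff]
    exact ⟨fun ⟨g, hg⟩ => par_dual R g hg, fun ⟨g, hg⟩ => dual_par R g hg⟩
  refine ⟨h1, ?_⟩
  intro N hN hM l
  induction l with
  | nil => exact hN
  | cons b l ih =>
    cases b with
    | true => exact cplus_tensor R hM ih
    | false => exact cplus_tensor R (h1.2 hM) ih

end Pool.Agent.W2helper15.SG
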